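import Pool.Agent.Helper45.U4.St2

/-!
# Project U4 (MP_a1f43d_co): module FRM (frames)
-/

set_option autoImplicit false

open Module Classical
open scoped LinearAlgebra.Projectivization

namespace Pool.Agent.Helper42.U4

open Pool.Agent.Helper45.U4 Pool.Agent.Helper53.PB

section
variable {F V : Type} [Field F] [AddCommGroup V] [Module F V]

private theorem gm_symm (i j : Fin 6) : gm F i j = gm F j i := by
  fin_cases i <;> fin_cases j <;> simp [gm]

private theorem gm_sq (i j : Fin 6) : gm F i j ^ 2 = gm F i j := by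
  unfold gm
  split_ifs <;> simp

private theorem gram_of_le {φ : Form F V} (sym : ∀ x y, φ.f y x = φ.f x y ^ 2) {b : Fin 6 → V}
    (h : ∀ i j, i ≤ j → φ.f (b i) (b j) = gm F i j) : ∀ i j, φ.f (b i) (b j) = gm F i j := by
  intro i j
  rcases le_total i j with hij | hij
  · exact h i j hij
  · rw [sym (b j) (b i), h j i hij, gm_sq, gm_symm]

private theorem gramOf {φ : Form F V} (sym : ∀ x y, φ.f y x = φ.f x y ^ 2) (x1 x2 : V)
    (y : Fin 4 → V) (h00 : φ.f x1 x1 = 0) (h11 : φ.f x2 x2 = 0) (h01 : φ.f x1 x2 = 1)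
    (h0 : ∀ k, φ.f x1 (y k) = 0) (h1 : ∀ k, φ.f x2 (y k) = 0)
    (hy : ∀ k l, φ.f (y k) (y l) = if k = l then 1 else 0) :
    ∀ i j, φ.f ((![x1, x2, y 0, y 1, y 2, y 3] : Fin 6 → V) i)
      ((![x1, x2, y 0, y 1, y 2, y 3] : Fin 6 → V) j) = gm F i j := by
  apply gram_of_le sym
  intro i j hij
  fin_cases i <;> fin_cases j <;>
    first
      | (exfalso; revert hij; decide)
      | (simp [gm, h00, h11, h01, h0, h1, hy])

private theorem frOf [FiniteDimensional F V] {φ : Form F V} (hd : finrank F V = 6)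
    {b : Fin 6 → V} (h : ∀ i j, φ.f (b i) (b j) = gm F i j) : Fr φ b := by
  have hli : LinearIndependent F b := by
    rw [Fintype.linearIndependent_iff]
    intro g hg
    have key : ∀ j : Fin 6, ∑ i, g i * gm F j i = 0 := by
      intro j
      have h1 := congrArg (φ.f (b j)) hg
      rw [map_sum, map_zero] at h1
      rw [← h1]
      refine Finset.sum_congr rfl fun i _ => ?_
      rw [map_smul, smul_eq_mul, h]
    have k0 := key 0
    have k1 := key 1
    have k2 := key 2
    have k3 := key 3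
    have k4 := key 4
    have k5 := key 5
    simp only [Fin.sum_univ_succ, gm] at k0 k1 k2 k3 k4 k5
    simp at k0 k1 k2 k3 k4 k5
    intro i
    fin_cases i
    · exact k1
    · exact k0
    · exact k2
    · exact k3
    · exact k4
    · exact k5
  exact ⟨h, hli, hli.span_eq_top_of_card_eq_finrank' (by simp [hd])⟩

end

theorem hFRM (h1 : StHF) (h2 : StONB) (h3 : StVEC) (h4 : StORT) : StFRM := by
  intro F V _ _ _ _ φ hs
  have hd : finrank F V = 6 := hs.dim
  obtain ⟨⟨ω0, hω0⟩, hpow, addL, smL, sym, sing, hval, hnd⟩ := h1 φ hs.kind hs.card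
  refine ⟨?_, ?_, ?_⟩
  · intro x1 x2 hx1 hx2 h12
    have h21 : φ.f x2 x1 = 1 := by rw [sym x1 x2, h12, one_pow]
    have hw : φ.f x2 x1 ≠ 0 := by rw [h21]; exact one_ne_zero
    have hdim : finrank F (perp2 φ x1 x2) = 4 := by
      have := finrank_perp2 φ hx1 hw
      omega
    obtain ⟨e, he, -, -⟩ := h2 (resForm φ hx1 hw) 4
      (by unfold resForm; rw [Form.restrict_kind]; exact hs.kind) hs.card hdim
    have he' : ∀ k l, φ.f (e k : V) (e l : V) = if k = l then 1 else 0 := by
      intro k l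
      rw [← he k l]
      unfold resForm
      rw [Form.restrict_f]
    refine ⟨![x1, x2, e 0, e 1, e 2, e 3], frOf hd ?_, rfl, rfl⟩
    exact gramOf sym x1 x2 (fun k => (e k : V)) ((sing x1).1 hx1) ((sing x2).1 hx2) h12
      (fun k => (e k).2.1) (fun k => (e k).2.2) he'
  · intro ω hω b hb e0 e1 e2 e3 hok
    obtain ⟨v1, v2, v3, v4, v5, v6⟩ := h3 ω b hω
    have ort := h4 φ ω b hs.kind hs.card hω hb
    unfold okF at hok
    simp only [List.all_cons, List.all_nil, Bool.and_true, Bool.and_eq_true, decide_eq_true_eq,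
      beq_iff_eq, Bool.not_eq_true'] at hok
    obtain ⟨⟨⟨⟨⟨⟨⟨⟨⟨c0, d0⟩, o0⟩, ⟨⟨c1, d1⟩, o1⟩, ⟨⟨c2, d2⟩, o2⟩, ⟨⟨c3, d3⟩, o3⟩⟩, o01⟩, o02⟩, o03⟩,
      o12⟩, o13⟩, o23⟩ := hok
    have bits : ∀ n : ℕ, n &&& 195 = 0 → n.testBit 0 = false ∧ n.testBit 1 = false ∧
        n.testBit 6 = false ∧ n.testBit 7 = false := by
      intro n hn
      have hk : ∀ k : ℕ, (195 : ℕ).testBit k = true → n.testBit k = false := by
        intro k hk
        have := congrArg (fun m => m.testBit k) hn
        simp only [Nat.testBit_and, hk, Bool.and_true, Nat.zero_testBit] at this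
        exact this
      exact ⟨hk 0 (by decide), hk 1 (by decide), hk 6 (by decide), hk 7 (by decide)⟩
    have per : ∀ n : ℕ, n &&& 195 = 0 → φ.f (b 0) (vv ω b n) = 0 ∧ φ.f (b 1) (vv ω b n) = 0 := by
      intro n hn
      obtain ⟨n0, n1, n6, n7⟩ := bits n hn
      unfold vv
      constructor
      · rw [map_sum, Finset.sum_eq_single (1 : Fin 6)]
        · rw [map_smul, smul_eq_mul]
          have : ((1 : Fin 6) : ℕ) = 1 := rfl
          rw [this, n1, n7]
          simp
        · intro i _ hi
          rw [map_smul, hb.gram]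
          have : gm F 0 i = 0 := by
            unfold gm
            rw [if_neg]
            rintro (⟨_, h⟩ | ⟨h, _⟩ | ⟨h, h'⟩)
            · exact hi h
            · exact absurd h (by decide)
            · exact absurd h' (by decide)
          rw [this, smul_zero]
        · intro h
          exact absurd (Finset.mem_univ _) h
      · rw [map_sum, Finset.sum_eq_single (0 : Fin 6)]
        · rw [map_smul, smul_eq_mul]
          have : ((0 : Fin 6) : ℕ) = 0 := rfl
          rw [this, n0, n6]
          simp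
        · intro i _ hi
          rw [map_smul, hb.gram]
          have : gm F 1 i = 0 := by
            unfold gm
            rw [if_neg]
            rintro (⟨h, _⟩ | ⟨_, h⟩ | ⟨h, h'⟩)
            · exact absurd h (by decide)
            · exact hi h
            · exact absurd h' (by decide)
          rw [this, smul_zero]
        · intro h
          exact absurd (Finset.mem_univ _) h
    have one : ∀ e : ℕ, e < 4096 → orth e e = false → φ.f (vv ω b e) (vv ω b e) = 1 := by
      intro e he ho
      rcases hval (vv ω b e) with h | h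
      · have := (ort e e he he).2 h
        rw [ho] at this
        exact absurd this (by decide)
      · exact h
    have zer : ∀ e e' : ℕ, e < 4096 → e' < 4096 → orth e e' = true →
        φ.f (vv ω b e) (vv ω b e') = 0 ∧ φ.f (vv ω b e') (vv ω b e) = 0 := by
      intro e e' he he' ho
      have h := (ort e e' he he').1 ho
      exact ⟨h, by rw [sym (vv ω b e) (vv ω b e'), h]; simp⟩
    refine ⟨frOf hd ?_, ?_⟩
    · refine gramOf sym (b 0) (b 1) ![vv ω b e0, vv ω b e1, vv ω b e2, vv ω b e3] ?_ ?_ ?_ ?_ ?_ ?_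
      · rw [hb.gram]; simp [gm]
      · rw [hb.gram]; simp [gm]
      · rw [hb.gram]; simp [gm]
      · intro k
        fin_cases k
        · exact (per e0 d0).1
        · exact (per e1 d1).1
        · exact (per e2 d2).1
        · exact (per e3 d3).1
      · intro k
        fin_cases k
        · exact (per e0 d0).2
        · exact (per e1 d1).2
        · exact (per e2 d2).2
        · exact (per e3 d3).2
      · have p0 := one e0 c0 o0
        have p1 := one e1 c1 o1
        have p2 := one e2 c2 o2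
        have p3 := one e3 c3 o3
        obtain ⟨q01, q10⟩ := zer e0 e1 c0 c1 o01
        obtain ⟨q02, q20⟩ := zer e0 e2 c0 c2 o02
        obtain ⟨q03, q30⟩ := zer e0 e3 c0 c3 o03
        obtain ⟨q12, q21⟩ := zer e1 e2 c1 c2 o12
        obtain ⟨q13, q31⟩ := zer e1 e3 c1 c3 o13
        obtain ⟨q23, q32⟩ := zer e2 e3 c2 c3 o23
        intro k l
        fin_cases k <;> fin_cases l <;>
          simp [p0, p1, p2, p3, q01, q10, q02, q20, q03, q30, q12, q21, q13, q31, q23, q32]
    · intro n hn hn'
      obtain ⟨n0, n1, n6, n7⟩ := bits n hn'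
      have ifv : ∀ (c : Bool) (m : ℕ), vv ω b (if c = true then m else 0) =
          if c = true then vv ω b m else 0 := by
        intro c m
        split_ifs
        · rfl
        · exact v6.1
      unfold img
      rw [v1, v1, v1, v1, v1, v1, v1]
      simp only [ifv]
      rw [(v2 e0 c0).1, (v2 e1 c1).1, (v2 e2 c2).1, (v2 e3 c3).1]
      generalize hV0 : vv ω b e0 = V0
      generalize hV1 : vv ω b e1 = V1
      generalize hV2 : vv ω b e2 = V2
      generalize hV3 : vv ω b e3 = V3
      unfold vv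
      rw [Fin.sum_univ_six]
      have k0 : ((0 : Fin 6) : ℕ) = 0 := rfl
      have k1 : ((1 : Fin 6) : ℕ) = 1 := rfl
      have k2 : ((2 : Fin 6) : ℕ) = 2 := rfl
      have k3 : ((3 : Fin 6) : ℕ) = 3 := rfl
      have k4 : ((4 : Fin 6) : ℕ) = 4 := rfl
      have k5 : ((5 : Fin 6) : ℕ) = 5 := rfl
      rw [k0, k1, k2, k3, k4, k5, n0, n1, n6, n7]
      simp only [Bool.false_eq_true, if_false, add_zero, zero_smul, zero_add, add_smul, ite_smul,
        one_smul]
      simp only [Matrix.cons_val]
      abel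
  · intro b hb m0 m1 m2 m3
    have two : ∀ c : F, c + c = 0 := hω0.two
    have p4 : ∀ c : F, (c ^ 2) ^ 2 = c := by
      intro c
      by_cases h : c = 0
      · rw [h]; simp
      · have := hpow c h
        calc (c ^ 2) ^ 2 = c ^ 3 * c := by ring
          _ = c := by rw [this, one_mul]
    have p3 : ∀ c : F, c ^ 3 = 0 ∨ c ^ 3 = 1 := by
      intro c
      by_cases h : c = 0
      · left; rw [h]; simp
      · right; exact hpow c h
    obtain ⟨κ, hκ⟩ : ∃ κ : F, κ + κ ^ 2 = m0 ^ 3 + m1 ^ 3 + m2 ^ 3 + m3 ^ 3 := by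
      have key : (m0 ^ 3 + m1 ^ 3 + m2 ^ 3 + m3 ^ 3 = 0) ∨ (m0 ^ 3 + m1 ^ 3 + m2 ^ 3 + m3 ^ 3 = 1) := by
        have h11 : (1 : F) + 1 = 0 := two 1
        rcases p3 m0 with a | a <;> rcases p3 m1 with b | b <;> rcases p3 m2 with c | c <;>
          rcases p3 m3 with d | d <;> rw [a, b, c, d] <;> simp [h11]
      rcases key with h | h
      · exact ⟨0, by rw [h]; simp⟩
      · refine ⟨ω0, ?_⟩
        rw [h, hω0.sq, ← add_assoc, two, zero_add]
    have g := hb.gram
    obtain ⟨μ, hμ⟩ : ∃ μ : Fin 4 → F, μ = ![m0, m1, m2, m3] := ⟨_, rfl⟩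
    obtain ⟨y, hy⟩ : ∃ y : Fin 4 → V, y = fun k => b k.succ.succ + μ k • b 0 := ⟨_, rfl⟩
    obtain ⟨x2, hx2⟩ : ∃ x2 : V, x2 = b 1 + m0 ^ 2 • b 2 + m1 ^ 2 • b 3 + m2 ^ 2 • b 4 +
      m3 ^ 2 • b 5 + κ • b 0 := ⟨_, rfl⟩
    refine ⟨![b 0, x2, y 0, y 1, y 2, y 3], frOf hd ?_, rfl, ?_, ?_, ?_, ?_⟩
    · refine gramOf sym (b 0) x2 y ?_ ?_ ?_ ?_ ?_ ?_
      · rw [g]; simp [gm]
      · rw [hx2]
        simp only [addL, smL, map_add, map_smul, smul_eq_mul, g]
        simp only [gm]
        simp
        have e1 : ∀ c : F, (c ^ 2) ^ 2 * c ^ 2 = c ^ 3 := by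
          intro c
          rw [p4]
          ring
        rw [e1, e1, e1, e1]
        calc κ + m0 ^ 3 + m1 ^ 3 + m2 ^ 3 + m3 ^ 3 + κ ^ 2
            = (κ + κ ^ 2) + (m0 ^ 3 + m1 ^ 3 + m2 ^ 3 + m3 ^ 3) := by ring
          _ = 0 := by rw [hκ, two]
      · rw [hx2]
        simp only [map_add, map_smul, smul_eq_mul, g]
        simp [gm]
      · intro k
        rw [hy]
        simp only [map_add, map_smul, smul_eq_mul, g]
        fin_cases k <;> simp [gm]
      · intro k
        rw [hy, hx2]
        simp only [addL, smL, map_add, map_smul, smul_eq_mul, g]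
        fin_cases k
        · simp [gm, hμ, p4, two]
        · simp [gm, hμ, p4, two]
        · simp [gm, hμ, p4, two]
        · simp [gm, hμ, p4, two]
      · intro k l
        rw [hy]
        simp only [addL, smL, map_add, map_smul, smul_eq_mul, g]
        fin_cases k <;> fin_cases l <;> simp [gm]
    · rw [hy, hμ]; rfl
    · rw [hy, hμ]; rfl
    · rw [hy, hμ]; rfl
    · rw [hy, hμ]; rfl

end Pool.Agent.Helper42.U4
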